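import Pool.Agent.helper35.MR.SpecB

set_option autoImplicit false

open Finset

namespace Pool.Agent.helper35.MR

open Pool.Agent.RRank

theorem HLB (hHV0 : HV0_stmt) (hSLC : SLC_stmt) : HLB_stmt := by
  intro K _ Q T s x y z w X hx hy hz hw hne
  by_contra hcon
  push Not at hcon
  unfold rank at hcon
  rw [sInf_lt_iff] at hcon
  obtain ⟨r, ⟨k, rfl, hk⟩, hks⟩ := hcon
  have hks' : k < s := by exact_mod_cast hks
  obtain ⟨t, ht1, ht2⟩ := (hSLC K (fun α => {a // a ∈ X α}) (minor T X)).2 k hk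
  let x' : Fin s → {a // a ∈ X 0} := fun i => ⟨x i, hx i⟩
  let y' : Fin s → {a // a ∈ X 1} := fun i => ⟨y i, hy i⟩
  let z' : Fin s → {a // a ∈ X 2} := fun i => ⟨z i, hz i⟩
  let w' : Fin s → {a // a ∈ X 3} := fun i => ⟨w i, hw i⟩
  have h0 := hHV0 K s k hks' (fun n i j k m => t n (x' i) (y' j) (z' k) (w' m)) (by
    intro n
    rcases ht1 n with ⟨a, a', h⟩ | ⟨a, a', h⟩ | ⟨a, a', h⟩ | ⟨a, a', h⟩
    · exact Or.inl ⟨fun i => a (x' i), fun j k m => a' (y' j) (z' k) (w' m), fun i j k m => h _ _ _ _⟩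
    · exact Or.inr (Or.inl ⟨fun i => a (y' i), fun j k m => a' (x' j) (z' k) (w' m), fun i j k m => h _ _ _ _⟩)
    · exact Or.inr (Or.inr (Or.inl ⟨fun i => a (z' i), fun j k m => a' (x' j) (y' k) (w' m), fun i j k m => h _ _ _ _⟩))
    · exact Or.inr (Or.inr (Or.inr ⟨fun i => a (w' i), fun j k m => a' (x' j) (y' k) (z' m), fun i j k m => h _ _ _ _⟩)))
  apply hne
  rw [← h0]
  unfold hyp
  refine Finset.sum_congr rfl fun σ _ => Finset.sum_congr rfl fun τ _ => Finset.sum_congr rfl fun ρ _ => ?_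
  congr 1
  refine Finset.prod_congr rfl fun i _ => ?_
  simp only [id]
  rw [← ht2]
  unfold minor
  congr 1
  funext α
  fin_cases α <;> rfl

end Pool.Agent.helper35.MR
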